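import Pool.Agent.LE.StmtsQ

/-!
# ECL: a cluster near the edge is large
-/

set_option autoImplicit false

open MeasureTheory ProbabilityTheory Function Filter

open scoped ENNReal BigOperators Topology NNReal

noncomputable section

namespace Pool.Agent.LE.CL.H54

open Pool.Agent.Anderson Pool.Agent.Loc Pool.Agent.Mob Pool.Agent.Helper54.Bal
  Pool.Agent.Helper96.EXP Pool.Agent.BED

variable {d : ℕ}

/-- the two error factors of the weight -/
theorem ratio_facts {κ ρ : ℝ} (hκ0 : 0 ≤ κ) (hκ1 : κ ≤ 1 / 50) (h1 : ρ ≤ Real.exp κ)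
    (h2 : 1 ≤ Real.exp κ * ρ) : |ρ - 1| ≤ 2 * κ ∧ |ρ + 1 / ρ - 2| ≤ 8 * κ ^ 2 := by
  have he : Real.exp κ ≤ 1 + 2 * κ := by
    have h3 := Real.exp_bound' hκ0 (by linarith : κ ≤ 1) (n := 1) (by norm_num)
    simp at h3
    linarith only [h3]
  have hρ1 : 1 - κ ≤ ρ := by
    have h4 := Real.add_one_le_exp (-κ)
    have h5 : Real.exp κ * Real.exp (-κ) = 1 := by rw [← Real.exp_add, add_neg_cancel, Real.exp_zero]
    have h6 : Real.exp (-κ) ≤ ρ := by
      have h7 : 0 < Real.exp κ := Real.exp_pos _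
      by_contra hcon
      push Not at hcon
      have h8 := mul_lt_mul_of_pos_left hcon h7
      linarith only [h8, h5, h2]
    linarith only [h4, h6]
  have hρ0 : 1 / 2 ≤ ρ := by linarith only [hρ1, hκ1]
  have ha : |ρ - 1| ≤ 2 * κ := by
    rw [abs_le]
    constructor <;> linarith
  refine ⟨ha, ?_⟩
  have h5 : ρ + 1 / ρ - 2 = (ρ - 1) ^ 2 / ρ := by
    field_simp
    ring
  rw [h5, abs_of_nonneg (by positivity), div_le_iff₀ (by linarith)]
  have h6 : (ρ - 1) ^ 2 ≤ (2 * κ) ^ 2 := sq_le_sq' (abs_le.1 ha).1 (abs_le.1 ha).2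
  have h7 := mul_le_mul_of_nonneg_left hρ0 (sq_nonneg κ)
  linarith only [h6, h7]

/-- the edges which meet `C'` -/
theorem sum_grad (S' S C' : Finset (Site d)) (φ : Site d → ℝ) {N D δ : ℝ}
    (hS : ∀ x, x ∉ S → φ x = 0) (hN : (C'.card : ℝ) ≤ 2 * N) (hN0 : 0 ≤ N)
    (hD : gd φ S' ≤ D) (hδ : ∑ x ∈ S \ C', |φ x| ≤ δ) :
    ∑ x ∈ S', ∑ i : Fin d, |φ (x + Pi.single i 1) - φ x| ≤
      Real.sqrt (4 * d * N * D) + 2 * d * δ := by
  classical
  set A : Finset (Site d × Fin d) := (S' ×ˢ Finset.univ).filter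
    fun p => p.1 ∈ C' ∨ p.1 + Pi.single p.2 1 ∈ C' with hA
  set g : Site d × Fin d → ℝ := fun p => |φ (p.1 + Pi.single p.2 1) - φ p.1| with hg
  have hcard : (A.card : ℝ) ≤ 4 * d * N := by
    have h1 : A ⊆ (C' ×ˢ Finset.univ) ∪
        (C' ×ˢ (Finset.univ : Finset (Fin d))).image fun p => (p.1 - Pi.single p.2 1, p.2) := by
      intro p hp
      rw [hA, Finset.mem_filter] at hp
      rw [Finset.mem_union]
      rcases hp.2 with h | h
      · left
        exact Finset.mem_product.2 ⟨h, Finset.mem_univ _⟩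
      · right
        refine Finset.mem_image.2 ⟨(p.1 + Pi.single p.2 1, p.2),
          Finset.mem_product.2 ⟨h, Finset.mem_univ _⟩, ?_⟩
        simp
    have h2 : A.card ≤ C'.card * d + C'.card * d := by
      refine (Finset.card_le_card h1).trans ((Finset.card_union_le _ _).trans ?_)
      refine add_le_add ?_ (Finset.card_image_le.trans ?_)
      · rw [Finset.card_product, Finset.card_univ, Fintype.card_fin]
      · rw [Finset.card_product, Finset.card_univ, Fintype.card_fin]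
    have h3 : (A.card : ℝ) ≤ C'.card * d + C'.card * d := by exact_mod_cast h2
    have h4 : (C'.card : ℝ) * d ≤ 2 * N * d := by gcongr
    linarith
  have h0 : ∑ x ∈ S', ∑ i : Fin d, |φ (x + Pi.single i 1) - φ x| =
      ∑ p ∈ S' ×ˢ (Finset.univ : Finset (Fin d)), g p := by
    rw [Finset.sum_product]
  have h1 : ∑ p ∈ S' ×ˢ (Finset.univ : Finset (Fin d)), g p = ∑ p ∈ A, g p +
      ∑ p ∈ (S' ×ˢ (Finset.univ : Finset (Fin d))).filter
        (fun p => ¬ (p.1 ∈ C' ∨ p.1 + Pi.single p.2 1 ∈ C')), g p := by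
    rw [hA, Finset.sum_filter_add_sum_filter_not]
  have hA1 : ∑ p ∈ A, g p ≤ Real.sqrt (4 * d * N * D) := by
    apply Real.le_sqrt_of_sq_le
    refine (sq_sum_le_card_mul_sum_sq (s := A) (f := g)).trans ?_
    have h2 : ∑ p ∈ A, g p ^ 2 ≤ D := by
      refine le_trans ?_ hD
      have h9 : gd φ S' = ∑ p ∈ S' ×ˢ (Finset.univ : Finset (Fin d)),
          (φ (p.1 + Pi.single p.2 1) - φ p.1) ^ 2 := by
        rw [Finset.sum_product]
        rfl
      rw [h9]
      refine (Finset.sum_le_sum fun p _ => (sq_abs _).le).trans ?_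
      refine Finset.sum_le_sum_of_subset_of_nonneg (Finset.filter_subset _ _) fun p _ _ => ?_
      positivity
    have h3 : 0 ≤ ∑ p ∈ A, g p ^ 2 := Finset.sum_nonneg fun p _ => sq_nonneg _
    exact mul_le_mul hcard h2 h3 (by positivity)
  have hB : ∑ p ∈ (S' ×ˢ (Finset.univ : Finset (Fin d))).filter
      (fun p => ¬ (p.1 ∈ C' ∨ p.1 + Pi.single p.2 1 ∈ C')), g p ≤ 2 * d * δ := by
    have hδ1 : ∀ i : Fin d, ∀ T : Finset (Site d), (∀ x ∈ T, x ∉ C') →
        ∑ x ∈ T, |φ x| ≤ δ := by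
      intro _ T hT
      refine le_trans ?_ hδ
      have h2 : ∑ x ∈ T, |φ x| = ∑ x ∈ T.filter (fun x => x ∈ S), |φ x| := by
        rw [Finset.sum_filter]
        refine Finset.sum_congr rfl fun x _ => ?_
        by_cases hx : x ∈ S
        · rw [if_pos hx]
        · rw [if_neg hx, hS x hx, abs_zero]
      rw [h2]
      refine Finset.sum_le_sum_of_subset_of_nonneg ?_ fun x _ _ => abs_nonneg _
      intro x hx
      rw [Finset.mem_filter] at hx
      exact Finset.mem_sdiff.2 ⟨hx.2, hT x hx.1⟩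
    have h3 : ∑ p ∈ (S' ×ˢ (Finset.univ : Finset (Fin d))).filter
        (fun p => ¬ (p.1 ∈ C' ∨ p.1 + Pi.single p.2 1 ∈ C')), g p =
        ∑ i : Fin d, ∑ x ∈ S'.filter (fun x => ¬ (x ∈ C' ∨ x + Pi.single i 1 ∈ C')),
          |φ (x + Pi.single i 1) - φ x| := by
      rw [Finset.sum_filter, Finset.sum_product_right]
      refine Finset.sum_congr rfl fun i _ => ?_
      rw [Finset.sum_filter]
    rw [h3]
    have h4 : ∀ i : Fin d, ∑ x ∈ S'.filter (fun x => ¬ (x ∈ C' ∨ x + Pi.single i 1 ∈ C')),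
        |φ (x + Pi.single i 1) - φ x| ≤ 2 * δ := by
      intro i
      set T := S'.filter (fun x => ¬ (x ∈ C' ∨ x + Pi.single i 1 ∈ C')) with hT
      have h5 : ∑ x ∈ T, |φ (x + Pi.single i 1) - φ x| ≤
          ∑ x ∈ T, (|φ (x + Pi.single i 1)| + |φ x|) := Finset.sum_le_sum fun x _ => abs_sub _ _
      rw [Finset.sum_add_distrib] at h5
      have h6 : ∑ x ∈ T, |φ x| ≤ δ := hδ1 i T fun x hx => by
        rw [hT, Finset.mem_filter] at hx
        exact fun h => hx.2 (Or.inl h)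
      have h7 : ∑ x ∈ T, |φ (x + Pi.single i 1)| ≤ δ := by
        have h8 := hδ1 i (T.image fun x => x + Pi.single i 1) fun x hx => by
          rw [Finset.mem_image] at hx
          obtain ⟨y, hy, rfl⟩ := hx
          rw [hT, Finset.mem_filter] at hy
          exact fun h => hy.2 (Or.inr h)
        rwa [Finset.sum_image (fun x _ y _ h => add_right_cancel h)] at h8
      linarith
    refine (Finset.sum_le_sum fun i _ => h4 i).trans (le_of_eq ?_)
    rw [Finset.sum_const, Finset.card_univ, Fintype.card_fin, nsmul_eq_mul]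
    ring
  rw [h0, h1]
  linarith

theorem ecl (sbp : SbpStmt) (enb : EnbStmt) : EclStmt := by
  classical
  intro d V ω χ ψ e C C' b r m z E lam κ k hd h hlam hκm
  by_contra hcon
  push Not at hcon
  have hd1 : (1 : ℝ) ≤ d := by exact_mod_cast hd
  have hd0 : (0 : ℝ) < d := by linarith
  set ℓ : ℝ := 2 * (m : ℝ) + 1 with hℓ
  have hℓ1 : 1 ≤ ℓ := by
    have : (0 : ℝ) ≤ m := Nat.cast_nonneg m
    linarith only [this, hℓ]
  have hlam0 : 0 ≤ lam := (abs_nonneg _).trans h.hE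
  have hκ0 := h.hκ.1
  set N : ℝ := (C.card : ℝ) with hN
  have hN1 : 1 ≤ N := by
    rw [hN]
    exact_mod_cast Finset.card_pos.2 h.hC.1
  have hC'N : (C'.card : ℝ) ≤ 2 * N := by
    rw [hN]
    exact_mod_cast h.hC.2.2.2
  have hlam' : lam * ℓ ^ 2 * d ≤ 1 / 100 := by
    rw [le_div_iff₀ (by positivity)] at hlam
    linarith only [hlam]
  have hκ' : κ * ℓ * d ≤ 1 / 50 := by
    rw [le_div_iff₀ (by positivity)] at hκm
    linarith only [hκm]
  have hκ'' : (κ * ℓ * d) ^ 2 ≤ (1 / 50) ^ 2 := by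
    apply pow_le_pow_left₀ _ hκ'
    positivity
  have hκs : κ ≤ 1 / 50 := by
    have h1 : κ * (1 * 1) ≤ κ * (ℓ * d) := mul_le_mul_of_nonneg_left
      (mul_le_mul hℓ1 hd1 zero_le_one (by linarith only [hℓ1])) hκ0
    linarith only [h1, hκ']
  obtain ⟨hψ2, hgd⟩ := enb d V ω χ ψ e C C' b r m z E lam κ k hd h hcon.le (by
    rw [← hℓ]
    linarith only [hlam', hκ''])
  rw [← hℓ, ← hN] at hψ2 hgd
  set S := box b r with hS
  set S' := box b (r + 1) with hS'
  have hSS' : S ⊆ S' := box_mono b (by omega)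
  have hω1 : ∀ x, 49 / 50 ≤ ω x := fun x => by
    have := (abs_le.1 (h.hω x)).1
    linarith only [this]
  have hω2 : ∀ x, ω x ≤ 51 / 50 := fun x => by
    have := (abs_le.1 (h.hω x)).2
    linarith only [this]
  have hω0 : ∀ x, 0 < ω x := fun x => by
    have := hω1 x
    linarith only [this]
  set φ : Site d → ℝ := fun x => ψ x / ω x with hφ
  have hψφ : ∀ x, ψ x = ω x * φ x := fun x => by
    rw [hφ]
    have := (hω0 x).ne'
    field_simp
  have hφS : ∀ x, x ∉ S → φ x = 0 := fun x hx => by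
    rw [hφ]
    simp only
    rw [h.hψ x hx, zero_div]
  have hφψ : ∀ x, |φ x| ≤ 50 / 49 * |ψ x| := fun x => by
    rw [hψφ x, abs_mul, abs_of_pos (hω0 x)]
    have h1 := hω1 x
    have h2 := abs_nonneg (φ x)
    have h3 := mul_le_mul_of_nonneg_right h1 h2
    linarith only [h3]
  have hdℓN : 1 ≤ d * ℓ ^ 2 * N := by
    have h1 : (1 : ℝ) ≤ ℓ ^ 2 := one_le_pow₀ hℓ1
    calc (1 : ℝ) = 1 * 1 * 1 := by norm_num
      _ ≤ d * ℓ ^ 2 * N := mul_le_mul (mul_le_mul hd1 h1 zero_le_one (by linarith only [hd1])) hN1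
          zero_le_one (mul_nonneg hd0.le (by linarith only [h1]))
  -- the sum of `|ψ|`
  have hsumC : ∑ x ∈ C', |ψ x| ≤ 71 / 10 * (d * ℓ ^ 2 * N) := by
    refine le_of_sq_le_sq ?_ (by linarith only [hdℓN])
    refine (sq_sum_le_card_mul_sum_sq (s := C') (f := fun x => |ψ x|)).trans ?_
    have h1 : ∑ x ∈ C', |ψ x| ^ 2 ≤ 25 * d ^ 2 * ℓ ^ 4 * N := by
      refine le_trans ?_ hψ2
      simp only [sq_abs]
      exact Finset.sum_le_sum_of_subset_of_nonneg h.hC.2.2.1 fun x _ _ => sq_nonneg _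
    have h2 : 0 ≤ ∑ x ∈ C', |ψ x| ^ 2 := Finset.sum_nonneg fun x _ => sq_nonneg _
    refine (mul_le_mul hC'N h1 h2 (by linarith only [hN1])).trans ?_
    have h3 : 0 ≤ (d * ℓ ^ 2 * N) ^ 2 := sq_nonneg _
    calc 2 * N * (25 * d ^ 2 * ℓ ^ 4 * N) = 50 * (d * ℓ ^ 2 * N) ^ 2 := by ring
      _ ≤ (71 / 10 * (d * ℓ ^ 2 * N)) ^ 2 := by linarith only [h3]
  have hsum : ∑ x ∈ S, |ψ x| ≤ 8 * (d * ℓ ^ 2 * N) := by
    have h1 := Finset.sum_sdiff (f := fun x => |ψ x|) h.hC.2.2.1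
    have h2 := h.hψC
    linarith only [h1, h2, hsumC, hdℓN]
  have hsumφ : ∑ x ∈ S, |φ x| ≤ 82 / 10 * (d * ℓ ^ 2 * N) := by
    have h1 : ∑ x ∈ S, |φ x| ≤ ∑ x ∈ S, 50 / 49 * |ψ x| := Finset.sum_le_sum fun x _ => hφψ x
    rw [← Finset.mul_sum] at h1
    linarith only [h1, hsum, hdℓN]
  have hsumφC : ∑ x ∈ S \ C', |φ x| ≤ 3 / 200 := by
    have h1 : ∑ x ∈ S \ C', |φ x| ≤ ∑ x ∈ S \ C', 50 / 49 * |ψ x| :=
      Finset.sum_le_sum fun x _ => hφψ x
    rw [← Finset.mul_sum] at h1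
    have h2 := h.hψC
    linarith only [h1, h2]
  -- the gradient
  have hgrad := sum_grad S' S C' φ hφS hC'N (by linarith only [hN1]) hgd hsumφC
  have hsqrt : Real.sqrt (4 * d * N * (12 * d * ℓ ^ 2 * N)) ≤ 7 * (d * ℓ * N) := by
    have h4 : 0 ≤ d * ℓ * N := mul_nonneg (mul_nonneg hd0.le (by linarith only [hℓ1]))
      (by linarith only [hN1])
    rw [Real.sqrt_le_left (by linarith only [h4])]
    have h3 : 0 ≤ (d * ℓ * N) ^ 2 := sq_nonneg _
    linarith only [h3]
  -- the weight term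
  set W : Site d → ℝ := fun y => ∑ i : Fin d, ((χ y / χ (y + Pi.single i 1) - 1) *
    ψ (y + Pi.single i 1) + (χ y / χ (y - Pi.single i 1) - 1) * ψ (y - Pi.single i 1)) with hW
  have hWsum : |∑ y ∈ S', ω y * W y| ≤ 10404 / 10000 * (2 * κ * (7 * (d * ℓ * N) + 3 / 100 * d) +
      8 * κ ^ 2 * (82 / 10 * (d ^ 2 * ℓ ^ 2 * N))) := by
    have h1 := (sbp d (fun x y => ω y * (χ y / χ x - 1) * ψ x) b r (fun x hx y => by
      rw [h.hψ x hx, mul_zero])).2
    have h2 : ∑ y ∈ S', ω y * W y = ∑ y ∈ box b (r + 1), ∑ i : Fin d,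
        (ω y * (χ y / χ (y + Pi.single i 1) - 1) * ψ (y + Pi.single i 1) +
          ω y * (χ y / χ (y - Pi.single i 1) - 1) * ψ (y - Pi.single i 1)) := by
      refine Finset.sum_congr rfl fun y _ => ?_
      rw [hW, Finset.mul_sum]
      refine Finset.sum_congr rfl fun i _ => ?_
      ring
    rw [h2, h1]
    have h3 : ∀ x (i : Fin d), |ω (x + Pi.single i 1) * (χ (x + Pi.single i 1) / χ x - 1) * ψ x +
        ω x * (χ x / χ (x + Pi.single i 1) - 1) * ψ (x + Pi.single i 1)| ≤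
          10404 / 10000 * (2 * κ * |φ (x + Pi.single i 1) - φ x| +
            8 * κ ^ 2 * |φ (x + Pi.single i 1)|) := by
      intro x i
      set y := x + Pi.single i 1 with hy
      have hχx := h.hχ x
      have hχy := h.hχ y
      obtain ⟨hr1, hr2⟩ := h.hχn x i
      rw [← hy] at hr1 hr2
      obtain ⟨hq1, hq2⟩ := ratio_facts (ρ := χ y / χ x) hκ0 hκs
        (by rwa [div_le_iff₀ hχx]) (by
          rw [← mul_div_assoc, le_div_iff₀ hχx]
          linarith only [hr1, hr2])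
      have h4 : ω y * (χ y / χ x - 1) * ψ x + ω x * (χ x / χ y - 1) * ψ y =
          ω x * ω y * ((χ y / χ x - 1) * (φ x - φ y) +
            (χ y / χ x + 1 / (χ y / χ x) - 2) * φ y) := by
        rw [hψφ x, hψφ y, one_div_div]
        ring
      rw [h4, abs_mul, abs_of_pos (mul_pos (hω0 x) (hω0 y))]
      have h5 : ω x * ω y ≤ 10404 / 10000 := by
        have := mul_le_mul (hω2 x) (hω2 y) (hω0 y).le (by norm_num)
        linarith only [this]
      refine mul_le_mul h5 ?_ (abs_nonneg _) (by norm_num)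
      refine (abs_add_le _ _).trans ?_
      rw [abs_mul, abs_mul, abs_sub_comm (φ x)]
      exact add_le_add (mul_le_mul_of_nonneg_right hq1 (abs_nonneg _))
        (mul_le_mul_of_nonneg_right hq2 (abs_nonneg _))
    have h6 : ∑ x ∈ S', ∑ i : Fin d, |φ (x + Pi.single i 1)| ≤
        82 / 10 * (d ^ 2 * ℓ ^ 2 * N) := by
      rw [Finset.sum_comm]
      have h7 : ∀ i : Fin d, ∑ x ∈ S', |φ (x + Pi.single i 1)| ≤ ∑ x ∈ S, |φ x| := by
        intro i
        have h8 : ∑ x ∈ S', |φ (x + Pi.single i 1)| =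
            ∑ y ∈ S'.image (fun x => x + Pi.single i 1), |φ y| := by
          rw [Finset.sum_image (fun x _ y _ h => add_right_cancel h)]
        rw [h8]
        have h9 : ∑ y ∈ S'.image (fun x => x + Pi.single i 1), |φ y| =
            ∑ y ∈ (S'.image (fun x => x + Pi.single i 1)).filter (fun y => y ∈ S), |φ y| := by
          rw [Finset.sum_filter]
          refine Finset.sum_congr rfl fun y _ => ?_
          by_cases hy : y ∈ S
          · rw [if_pos hy]
          · rw [if_neg hy, hφS y hy, abs_zero]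
        rw [h9]
        refine Finset.sum_le_sum_of_subset_of_nonneg ?_ fun x _ _ => abs_nonneg _
        intro y hy
        exact (Finset.mem_filter.1 hy).2
      refine (Finset.sum_le_sum fun i _ => (h7 i).trans hsumφ).trans (le_of_eq ?_)
      rw [Finset.sum_const, Finset.card_univ, Fintype.card_fin, nsmul_eq_mul]
      ring
    have h7 : |∑ x ∈ S', ∑ i : Fin d, (ω (x + Pi.single i 1) *
        (χ (x + Pi.single i 1) / χ x - 1) * ψ x +
        ω x * (χ x / χ (x + Pi.single i 1) - 1) * ψ (x + Pi.single i 1))| ≤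
          ∑ x ∈ S', ∑ i : Fin d, 10404 / 10000 * (2 * κ * |φ (x + Pi.single i 1) - φ x| +
            8 * κ ^ 2 * |φ (x + Pi.single i 1)|) := by
      refine (Finset.abs_sum_le_sum_abs _ _).trans (Finset.sum_le_sum fun x _ => ?_)
      exact (Finset.abs_sum_le_sum_abs _ _).trans (Finset.sum_le_sum fun i _ => h3 x i)
    refine h7.trans ?_
    have h8 : ∑ x ∈ S', ∑ i : Fin d, 10404 / 10000 * (2 * κ * |φ (x + Pi.single i 1) - φ x| +
        8 * κ ^ 2 * |φ (x + Pi.single i 1)|) = 10404 / 10000 *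
          (2 * κ * ∑ x ∈ S', ∑ i : Fin d, |φ (x + Pi.single i 1) - φ x| +
            8 * κ ^ 2 * ∑ x ∈ S', ∑ i : Fin d, |φ (x + Pi.single i 1)|) := by
      simp only [Finset.mul_sum, ← Finset.sum_add_distrib]
    rw [h8]
    have h9 : ∑ x ∈ S', ∑ i : Fin d, |φ (x + Pi.single i 1) - φ x| ≤
        7 * (d * ℓ * N) + 3 / 100 * d := by linarith only [hgrad, hsqrt]
    refine mul_le_mul_of_nonneg_left (add_le_add (mul_le_mul_of_nonneg_left h9
      (by linarith only [hκ0])) (mul_le_mul_of_nonneg_left h6 ?_)) (by norm_num)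
    exact mul_nonneg (by norm_num) (sq_nonneg κ)
  -- the test
  have htest : k * ∑ x ∈ S, ψ x = (z - E) * ∑ y ∈ S', ω y * ψ y + ∑ y ∈ C, ω y ^ 2 +
      ∑ y ∈ S', ω y * W y + ∑ y ∈ S', ω y * e y := by
    have hCS' : C ⊆ S' := (h.hC.2.1.trans h.hC.2.2.1).trans hSS'
    have h1 : ∑ y ∈ S', ω y * ((E - V y) * ψ y - nb ψ y) = ∑ y ∈ C, ω y ^ 2 +
        ∑ y ∈ S', ω y * W y + ∑ y ∈ S', ω y * e y := by
      have h2 : ∑ y ∈ C, ω y ^ 2 = ∑ y ∈ S', ω y * (if y ∈ C then ω y else 0) := by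
        rw [← Finset.sum_subset hCS' (f := fun y => ω y * (if y ∈ C then ω y else 0))]
        · refine Finset.sum_congr rfl fun y hy => ?_
          rw [if_pos hy]
          ring
        · intro y _ hy
          rw [if_neg hy, mul_zero]
      rw [h2, ← Finset.sum_add_distrib, ← Finset.sum_add_distrib]
      refine Finset.sum_congr rfl fun y hy => ?_
      rw [h.heq y hy, hW]
      ring
    have h3 : ∑ y ∈ S', ω y * ((z - V y) * ψ y - nb ψ y) = k * ∑ x ∈ S, ψ x := by
      have h4 : ∑ y ∈ S', ω y * nb ψ y = ∑ x ∈ S, ψ x * nb ω x := by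
        obtain ⟨h5, h6⟩ := sbp d (fun x y => ψ x * ω y) b r (fun x hx y => by
          rw [h.hψ x hx, zero_mul])
        have h7 : ∑ y ∈ S', ω y * nb ψ y = ∑ y ∈ box b (r + 1), ∑ i : Fin d,
            (ψ (y + Pi.single i 1) * ω y + ψ (y - Pi.single i 1) * ω y) := by
          refine Finset.sum_congr rfl fun y _ => ?_
          unfold nb
          rw [Finset.mul_sum]
          refine Finset.sum_congr rfl fun i _ => ?_
          ring
        have h8 : ∑ x ∈ S, ψ x * nb ω x = ∑ x ∈ box b r, ∑ i : Fin d,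
            (ψ x * ω (x + Pi.single i 1) + ψ x * ω (x - Pi.single i 1)) := by
          refine Finset.sum_congr rfl fun y _ => ?_
          unfold nb
          rw [Finset.mul_sum]
          refine Finset.sum_congr rfl fun i _ => ?_
          ring
        rw [h7, h8, h6, h5]
      have h5 : ∑ y ∈ S', ω y * ((z - V y) * ψ y) = ∑ x ∈ S, ψ x * ((z - V x) * ω x) := by
        rw [← Finset.sum_subset hSS' (f := fun y => ω y * ((z - V y) * ψ y))]
        · refine Finset.sum_congr rfl fun y _ => ?_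
          ring
        · intro y _ hy
          rw [h.hψ y hy, mul_zero, mul_zero]
      simp only [mul_sub (ω _), Finset.sum_sub_distrib]
      rw [h4, h5, ← Finset.sum_sub_distrib, Finset.mul_sum]
      refine Finset.sum_congr rfl fun x hx => ?_
      rw [← mul_sub, h.hωe x hx]
      ring
    have h10 : ∑ y ∈ S', ω y * ((z - V y) * ψ y - nb ψ y) =
        (z - E) * ∑ y ∈ S', ω y * ψ y + ∑ y ∈ S', ω y * ((E - V y) * ψ y - nb ψ y) := by
      rw [Finset.mul_sum, ← Finset.sum_add_distrib]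
      refine Finset.sum_congr rfl fun y _ => ?_
      ring
    rw [← h3, h10, h1]
    ring
  -- the bounds
  have hb1 : 9604 / 10000 * N ≤ ∑ y ∈ C, ω y ^ 2 := by
    have h1 : ∑ _y ∈ C, (9604 / 10000 : ℝ) ≤ ∑ y ∈ C, ω y ^ 2 := by
      refine Finset.sum_le_sum fun y _ => ?_
      have := pow_le_pow_left₀ (by norm_num) (hω1 y) 2
      linarith only [this]
    rw [Finset.sum_const, nsmul_eq_mul] at h1
    linarith only [h1, hN]
  have hb2 : |k * ∑ x ∈ S, ψ x| ≤ lam * (8 * (d * ℓ ^ 2 * N)) := by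
    rw [abs_mul, abs_of_nonneg h.hk.1]
    exact mul_le_mul h.hk.2 ((Finset.abs_sum_le_sum_abs _ _).trans hsum) (abs_nonneg _) hlam0
  have hb3 : |(z - E) * ∑ y ∈ S', ω y * ψ y| ≤ lam * (51 / 50 * (8 * (d * ℓ ^ 2 * N))) := by
    rw [abs_mul]
    refine mul_le_mul (by rw [abs_sub_comm]; exact h.hE) ?_ (abs_nonneg _) hlam0
    refine (Finset.abs_sum_le_sum_abs _ _).trans ?_
    have h1 : ∑ y ∈ S', |ω y * ψ y| ≤ ∑ y ∈ S', 51 / 50 * |ψ y| := by
      refine Finset.sum_le_sum fun y _ => ?_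
      rw [abs_mul, abs_of_pos (hω0 y)]
      exact mul_le_mul_of_nonneg_right (hω2 y) (abs_nonneg _)
    rw [← Finset.mul_sum] at h1
    have h2 : ∑ y ∈ S', |ψ y| = ∑ y ∈ S, |ψ y| := by
      rw [← Finset.sum_subset hSS' (f := fun y => |ψ y|)]
      intro y _ hy
      rw [h.hψ y hy, abs_zero]
    rw [h2] at h1
    linarith only [h1, hsum]
  have hb4 : |∑ y ∈ S', ω y * e y| ≤ 51 / 50 * (1 / 100) := by
    refine (Finset.abs_sum_le_sum_abs _ _).trans ?_
    have h1 : ∑ y ∈ S', |ω y * e y| ≤ ∑ y ∈ S', 51 / 50 * |e y| := by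
      refine Finset.sum_le_sum fun y _ => ?_
      rw [abs_mul, abs_of_pos (hω0 y)]
      exact mul_le_mul_of_nonneg_right (hω2 y) (abs_nonneg _)
    rw [← Finset.mul_sum] at h1
    have h2 := h.he
    linarith only [h1, h2]
  have hmain : 9604 / 10000 * N ≤ lam * (8 * (d * ℓ ^ 2 * N)) +
      lam * (51 / 50 * (8 * (d * ℓ ^ 2 * N))) +
      10404 / 10000 * (2 * κ * (7 * (d * ℓ * N) + 3 / 100 * d) +
        8 * κ ^ 2 * (82 / 10 * (d ^ 2 * ℓ ^ 2 * N))) + 51 / 50 * (1 / 100) := by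
    have h1 := abs_le.1 hb2
    have h2 := abs_le.1 hb3
    have h3 := abs_le.1 hb4
    have h4 := abs_le.1 hWsum
    linarith only [htest, hb1, h1.2, h2.1, h3.1, h4.1]
  have e1 : lam * (8 * (d * ℓ ^ 2 * N)) = 8 * (lam * ℓ ^ 2 * d) * N := by ring
  have e2 : lam * (51 / 50 * (8 * (d * ℓ ^ 2 * N))) = 408 / 50 * (lam * ℓ ^ 2 * d) * N := by ring
  have e3 : 2 * κ * (7 * (d * ℓ * N) + 3 / 100 * d) = 14 * (κ * ℓ * d) * N + 6 / 100 * (κ * d) := by
    ring
  have e4 : 8 * κ ^ 2 * (82 / 10 * (d ^ 2 * ℓ ^ 2 * N)) = 656 / 10 * (κ * ℓ * d) ^ 2 * N := by ring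
  rw [e1, e2, e3, e4] at hmain
  have hN0 : 0 ≤ N := by linarith only [hN1]
  have f1 := mul_le_mul_of_nonneg_right hlam' hN0
  have f3 := mul_le_mul_of_nonneg_right hκ' hN0
  have f4 := mul_le_mul_of_nonneg_right hκ'' hN0
  have f5 : κ * d ≤ 1 / 50 := by
    refine le_trans ?_ hκ'
    calc κ * d = κ * 1 * d := by ring
      _ ≤ κ * ℓ * d := mul_le_mul_of_nonneg_right (mul_le_mul_of_nonneg_left hℓ1 hκ0) hd0.le
  linarith only [hmain, f1, f3, f4, f5, hN1]

end Pool.Agent.LE.CL.H54
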