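import Pool.Agent.Helper93_LEW.AllX
import Pool.Agent.Helper63_LYM.DUA
import Pool.Agent.Helper8_LYM.PRB
import Pool.Agent.Helper32_LSP.CN3
import Pool.Agent.Helper32_LSP.CR3
import Pool.Agent.Helper81_LSP.CRG
import Pool.Agent.Helper81_LSP.CLP
import Pool.Agent.Helper9_LSP.OST
import Pool.Agent.Helper17_LSP.LAQ
import Pool.Agent.Helper17_LSP.HSU
import Pool.Agent.Helper17_LSP.BLK
import Pool.Agent.Helper67_LSP.PAI
import Pool.Agent.Helper48_LSP.CLB
import Pool.Agent.Helper76_LSP.TSA
import Pool.Agent.Helper28_LSP.KRB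
import Pool.Agent.Helper93_LSP.PBD
import Pool.Agent.Helper45_LSC.CUT
import Pool.Agent.Helper45_LSC.PEN
import Pool.Agent.Helper70_LSC.EDC
import Pool.Agent.Helper70_LSC.ENB
import Pool.Agent.Helper77_LSC.ENI
import Pool.Agent.Helper18_LSC.FKI
import Pool.Agent.Helper82_LSC.SBP
import Pool.Agent.Helper86_LSC.EDP
import Pool.Agent.Helper54_LSC.ECL

/-!
# The Lyapunov exponent, pointwise: assembly of the bulk and of the edge
-/

set_option autoImplicit false

open MeasureTheory ProbabilityTheory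

noncomputable section

namespace Pool.Agent.LE.CL.H54

open Pool.Agent.Anderson Pool.Agent.Loc Pool.Agent.Helper54.Bal Pool.Agent.Mob
  Pool.Agent.LE.H93C Pool.Agent.LE.H93W Pool.Agent.BED

theorem cn3T : Cn3Stmt := H32.cn3 H24.dmi

theorem cr3T : Cr3Stmt := H32.cr3 cn3T trfT (H76C.reg uchT)

theorem ostT : OstStmt := H09.ost trfT

theorem crgT : CrgStmt := H81.crg cr3T ostT infT

theorem enbT : EnbStmt := H70.enb H82.sbp H18.fki (H77.eni H82.sbp)

theorem eclT : EclStmt := ecl H82.sbp enbT

theorem edcT : EdcStmt := H70.edc H45.cut eclT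

theorem edpT : EdpStmt := H86.edp edcT

/-- the bound near the effective band edge -/
theorem penT : PenStmt := H45.pen edpT crgT

theorem blkT : BlkStmt := H17.blk H17.laq H17.hsu H67.pai

theorem clbT : ClbStmt := H48.clb blkT

theorem clpT : ClpStmt := H81.clp clbT (H76.tsa H28V.krb) MN.H63.dua MN.H8.prb

/-- the bound in the bulk -/
theorem pbdT : PbdStmt := H93.pbd clpT crgT

end Pool.Agent.LE.CL.H54
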